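import Pool.Agent.Helper35.GF.Defs

/-! The levels of Gel'fond's conjecture in an exponential field. -/

set_option autoImplicit false

namespace Pool.Agent.Helper35.GL

open Pool.Agent.Helper35.GF

/-- The level `(a, b)` of Gel'fond's conjecture in the field `F`: for at most `a` rationally independent
algebraic numbers `α i` and at most `b` rationally independent logarithms `l j` of algebraic numbers, the
numbers `E (α i)`, `l j` are algebraically independent over the field of algebraic numbers. (The
question is the conjunction of the levels `(n, n)`, for the complex numbers.) -/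
def Level (F : ExpField) (a b : ℕ) : Prop :=
  ∀ (n m : ℕ) (α : Fin n → ℂ) (l : Fin m → ℂ), n ≤ a → m ≤ b → (∀ i, IsAlgebraic ℚ (α i)) →
    (∀ j, IsLog F (l j)) → LinearIndependent ℚ α → LinearIndependent ℚ l →
      AlgebraicIndependent Qbar (Sum.elim (fun i => F.E (α i)) l)

/-- the set of the levels which hold in the field `F` -/
def levels (F : ExpField) : Set (ℕ × ℕ) := {s | Level F s.1 s.2}

/-- the question: Gel'fond's conjecture for the complex numbers -/
def Question : Prop :=
  ∀ n : ℕ, 1 ≤ n → ∀ α l : Fin n → ℂ, (∀ i, IsAlgebraic ℚ (α i)) →
    (∀ i, IsAlgebraic ℚ (Complex.exp (l i))) → LinearIndependent ℚ α → LinearIndependent ℚ l →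
      AlgebraicIndependent Qbar (Sum.elim (fun i => Complex.exp (α i)) l)

end Pool.Agent.Helper35.GL
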