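import Pool.Agent.Helper35.GL.Stm

/-! Rationally independent algebraic numbers: powers of a root of unity. -/

set_option autoImplicit false

namespace Pool.Agent.Helper35.GL

theorem ga : S_GA := by
  intro n
  obtain ⟨p, hp, hprime⟩ := Nat.exists_infinite_primes (n + 1)
  have hp0 : p ≠ 0 := hprime.ne_zero
  have hζ := Complex.isPrimitiveRoot_exp p hp0
  set ζ := Complex.exp (2 * Real.pi * Complex.I / p) with hζd
  have h1 := Polynomial.cyclotomic_eq_minpoly_rat hζ hprime.pos
  have h2 : n ≤ (minpoly ℚ ζ).natDegree := by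
    rw [← h1, Polynomial.natDegree_cyclotomic, Nat.totient_prime hprime]
    omega
  have h3 := linearIndependent_pow (K := ℚ) ζ
  refine ⟨fun i => ζ ^ (i : ℕ), fun i => ?_, ?_⟩
  · have h4 : IsIntegral ℚ ζ := (hζ.isIntegral hprime.pos).tower_top
    exact (h4.pow _).isAlgebraic
  · exact h3.comp (Fin.castLE h2) (Fin.castLE_injective h2)

end Pool.Agent.Helper35.GL
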