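import Pool.Agent.Helper35.GL.Stm

/-! Package GB (helper92): rationally independent logarithms of algebraic numbers. The independence of
the logarithms of the primes is copied from `Pool/Agent/Helper78/EC/Logs.lean` (helper78). -/

set_option autoImplicit false

namespace Pool.Agent.Helper35.GL

open Module

theorem val_prod (q : Nat.Primes) (s : Finset Nat.Primes) (g : Nat.Primes → ℤ) :
    padicValRat q (∏ p ∈ s, ((p : ℕ) : ℚ) ^ g p) = if q ∈ s then g q else 0 := by
  classical
  have hq : Fact (q : ℕ).Prime := ⟨q.2⟩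
  induction s using Finset.induction_on with
  | empty => simp
  | insert a s ha ih =>
    have ha0 : ((a : ℕ) : ℚ) ≠ 0 := by exact_mod_cast a.2.ne_zero
    have hp0 : ∏ p ∈ s, ((p : ℕ) : ℚ) ^ g p ≠ 0 :=
      Finset.prod_ne_zero_iff.2 (fun p _ => zpow_ne_zero _ (by exact_mod_cast p.2.ne_zero))
    rw [Finset.prod_insert ha, padicValRat.mul (zpow_ne_zero _ ha0) hp0, ih, padicValRat.zpow]
    by_cases h : q = a
    · subst h
      rw [padicValRat.self q.2.one_lt, if_neg ha, if_pos (Finset.mem_insert_self _ _)]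
      ring
    · have h1 : padicValRat (q : ℕ) ((a : ℕ) : ℚ) = 0 := by
        rw [padicValRat.of_nat]
        have : padicValNat (q : ℕ) (a : ℕ) = 0 := by
          apply padicValNat.eq_zero_of_not_dvd
          intro hd
          exact h (Subtype.ext ((Nat.prime_dvd_prime_iff_eq q.2 a.2).1 hd))
        rw [this]
        rfl
      rw [h1, mul_zero, zero_add]
      by_cases hs : q ∈ s
      · rw [if_pos hs, if_pos (Finset.mem_insert_of_mem hs)]
      · rw [if_neg hs, if_neg (by
          rw [Finset.mem_insert]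
          tauto)]

theorem indep_log : LinearIndependent ℚ (fun p : Nat.Primes => ((Real.log (p : ℕ) : ℝ) : ℂ)) := by
  have h1 : LinearIndependent ℤ (fun p : Nat.Primes => ((Real.log (p : ℕ) : ℝ) : ℂ)) := by
    rw [linearIndependent_iff']
    intro s g hg p hp
    have h2 : ∑ p ∈ s, (g p : ℝ) * Real.log (p : ℕ) = 0 := by
      have h3 : ((∑ p ∈ s, (g p : ℝ) * Real.log (p : ℕ) : ℝ) : ℂ) = 0 := by
        rw [← hg]
        push_cast
        exact Finset.sum_congr rfl (fun p _ => (zsmul_eq_mul _ _).symm)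
      exact_mod_cast h3
    have h4 : ((∏ p ∈ s, ((p : ℕ) : ℚ) ^ g p : ℚ) : ℝ) = 1 := by
      rw [← Real.exp_zero, ← h2, Real.exp_sum]
      push_cast
      refine Finset.prod_congr rfl (fun p _ => ?_)
      have hp : (0 : ℝ) < ((p : ℕ) : ℝ) := by exact_mod_cast p.2.pos
      rw [mul_comm, Real.exp_mul, Real.exp_log hp, Real.rpow_intCast]
    have h5 : (∏ p ∈ s, ((p : ℕ) : ℚ) ^ g p : ℚ) = 1 := by exact_mod_cast h4
    have h6 := val_prod p s g
    rw [h5, if_pos hp, padicValRat.one] at h6
    exact h6.symm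
  exact (LinearIndependent.iff_fractionRing ℤ ℚ).1 h1

theorem gb : S_GB := by
  intro m
  obtain ⟨e⟩ : Nonempty (Fin m ↪ Nat.Primes) :=
    ⟨(Fin.valEmbedding (n := m)).trans (Infinite.natEmbedding Nat.Primes)⟩
  refine ⟨fun j => ((Real.log ((e j : Nat.Primes) : ℕ) : ℝ) : ℂ), fun j => ?_, ?_⟩
  · rw [← Complex.ofReal_exp, Real.exp_log (by exact_mod_cast (e j).2.pos)]
    exact_mod_cast isAlgebraic_algebraMap (R := ℚ) (A := ℂ) (((e j : Nat.Primes) : ℕ) : ℚ)
  · exact indep_log.comp e e.injective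

end Pool.Agent.Helper35.GL
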