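import Pool.Agent.Helper35.GL.Lev
import Pool.Agent.Helper35.GL.GA
import Pool.Agent.Helper35.GL.GB
import Pool.Agent.Helper38.GL.GC
import Pool.Agent.Helper22.GL.GD

/-! The sets of levels which occur. -/

set_option autoImplicit false

namespace Pool.Agent.Helper35.GL

open Pool.Agent.Helper35.GF Set

theorem levels_lower (F : ExpField) : IsLowerSet (levels F) := by
  intro s s' h hs
  exact Level.mono hs h.1 h.2

theorem exists_of_lower {D : Set (ℕ × ℕ)} (hD : IsLowerSet D) (h1 : ∀ a, (a, 0) ∈ D)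
    (h2 : ∀ b, (0, b) ∈ D) :
    ∃ F : ExpField, LindemannWeierstrass F ∧ LogIndependence F ∧ levels F = D := by
  set S : Set (ℕ × ℕ) := {p | Minimal (fun q => q ∉ D) p} with hS
  have hfin : S.Finite := by
    have ha : IsAntichain (· ≤ ·) S := setOfPred_minimal_antichain _
    exact ha.finite_of_wellQuasiOrdered WellQuasiOrderedLE.wqo
  have hSD : ∀ q ∈ S, q ∉ D := fun q hq =>
    Minimal.prop (P := fun q => q ∉ D) (x := q) hq
  have hex : ∀ p, p ∉ D → ∃ q ∈ S, q ≤ p := by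
    intro p hp
    obtain ⟨q, hq, hm⟩ := exists_minimal_le_of_wellFoundedLT (fun q => q ∉ D) p hp
    exact ⟨q, hm, hq⟩
  have := hfin.fintype
  let e := (Fintype.equivFin S).symm
  have hpos : ∀ k, 1 ≤ (e k : ℕ × ℕ).1 ∧ 1 ≤ (e k : ℕ × ℕ).2 := by
    intro k
    have hk : (e k : ℕ × ℕ) ∉ D := hSD _ (e k).2
    constructor
    · by_contra h
      apply hk
      have : (e k : ℕ × ℕ) = (0, (e k : ℕ × ℕ).2) := Prod.ext (by show _ = 0; omega) rfl
      rw [this]; exact h2 _
    · by_contra h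
      apply hk
      have : (e k : ℕ × ℕ) = ((e k : ℕ × ℕ).1, 0) := Prod.ext rfl (by show _ = 0; omega)
      rw [this]; exact h1 _
  obtain ⟨F, hF⟩ := exists_levels ga gb Pool.Agent.Helper38.GL.gc
    Pool.Agent.Helper22.GL.gd (fun k => (e k : ℕ × ℕ).1 - 1) (fun k => (e k : ℕ × ℕ).2 - 1)
  have hlev : levels F = D := by
    ext p
    show Level F p.1 p.2 ↔ p ∈ D
    rw [hF]
    constructor
    · intro h
      by_contra hp
      obtain ⟨q, hq, hqp⟩ := hex p hp
      apply h (e.symm ⟨q, hq⟩)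
      rw [Equiv.apply_symm_apply]
      have h3 := hpos (e.symm ⟨q, hq⟩)
      rw [Equiv.apply_symm_apply] at h3
      exact ⟨by rw [Nat.sub_add_cancel h3.1]; exact hqp.1,
        by rw [Nat.sub_add_cancel h3.2]; exact hqp.2⟩
    · rintro hp k ⟨h3, h4⟩
      rw [Nat.sub_add_cancel (hpos k).1] at h3
      rw [Nat.sub_add_cancel (hpos k).2] at h4
      exact hSD _ (e k).2 (hD (show (e k : ℕ × ℕ) ≤ p from ⟨h3, h4⟩) hp)
  refine ⟨F, (level_lw F).2 fun a => ?_, (level_log F).2 fun b => ?_, hlev⟩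
  · have : (a, 0) ∈ levels F := hlev ▸ h1 a
    exact this
  · have : (0, b) ∈ levels F := hlev ▸ h2 b
    exact this

theorem complex_expField : ∃ F : ExpField, F.K = ⊤ ∧ F.E = Complex.exp := by
  refine ⟨⟨⊤, Complex.exp, fun z _ => trivial, fun _ _ => trivial, fun x _ y _ =>
    Complex.exp_add x y, fun y _ hy => ⟨Complex.log y, trivial, Complex.exp_log hy⟩,
    ⟨2 * Real.pi * Complex.I, trivial, ?_, fun x _ => ?_⟩⟩, rfl, rfl⟩
  · simp [Real.pi_ne_zero]
  · exact Complex.exp_eq_one_iff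

end Pool.Agent.Helper35.GL
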