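import Pool.Agent.Helper35.GL.Main

/-! Elimination of the relations, one after the other. -/

set_option autoImplicit false

namespace Pool.Agent.Helper35.GL

open Pool.Agent.Helper35.EM Pool.Agent.Helper56.EM Pool.Agent.Helper35.GF Set Module Submodule

theorem fin_image {N : ℕ} (g : Fin N → ℂ) (S : Finset (Fin N)) :
    FiniteDimensional ℚ (span ℚ (g '' (S : Set (Fin N)))) :=
  FiniteDimensional.span_of_finite ℚ (S.finite_toSet.image g)

theorem finrank_image {N : ℕ} {g : Fin N → ℂ} (hg : LinearIndependent ℚ g) (S : Finset (Fin N)) :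
    finrank ℚ (span ℚ (g '' (S : Set (Fin N)))) = S.card := by
  have h1 := finrank_span_eq_card (hg.comp ((↑) : {i // i ∈ S} → Fin N) Subtype.val_injective)
  have h2 : range (g ∘ ((↑) : {i // i ∈ S} → Fin N)) = g '' (S : Set (Fin N)) := by
    rw [range_comp]
    congr 1
    simp
  rw [h2] at h1
  rw [h1]
  simp

theorem notin {N : ℕ} {g : Fin N → ℂ} (hg : LinearIndependent ℚ g) {A : Submodule ℚ ℂ}
    (hA : FiniteDimensional ℚ A) {P : Finset (Fin N)} {R : Finset (Fin N)} (hPR : Disjoint P R)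
    (h : finrank ℚ A < P.card) :
    ∃ i ∈ P, g i ∉ A ⊔ span ℚ (g '' (R : Set (Fin N))) := by
  classical
  by_contra hcon
  push Not at hcon
  have hf := fin_image g R
  have h1 : span ℚ (g '' ((P ∪ R : Finset (Fin N)) : Set (Fin N))) ≤
      A ⊔ span ℚ (g '' (R : Set (Fin N))) := by
    rw [span_le]
    rintro _ ⟨i, hi, rfl⟩
    rcases Finset.mem_union.1 (Finset.mem_coe.1 hi) with h | h
    · exact hcon i h
    · exact Submodule.mem_sup_right (subset_span ⟨i, h, rfl⟩)
  have h2 := Submodule.finrank_mono h1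
  rw [finrank_image hg, Finset.card_union_of_disjoint hPR] at h2
  have h3 := Submodule.finrank_add_le_finrank_add_finrank A (span ℚ (g '' (R : Set (Fin N))))
  rw [finrank_image hg] at h3
  omega

/-- the union of the blocks of a list -/
def un {N : ℕ} {β : Type} (f : β → Finset (Fin N)) : List β → Finset (Fin N)
  | [] => ∅
  | a :: w => f a ∪ un f w

theorem mem_un {N : ℕ} {β : Type} {f : β → Finset (Fin N)} {w : List β} {i : Fin N} :
    i ∈ un f w ↔ ∃ a ∈ w, i ∈ f a := by
  induction w with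
  | nil => simp [un]
  | cons a w ih => simp [un, ih]

section

variable {N M' : ℕ} {α x : Fin N → ℂ} {c l : Fin M' → ℂ} {F : ExpField}

theorem elim (hGC : S_GC) (hα : ∀ i, α i ∈ F.K) (hαi : LinearIndependent ℚ α)
    (hli : LinearIndependent ℚ l) (hc : ∀ j, c j ∈ M.closure ∅) (hci : LinearIndependent ℚ c)
    (hxE : ∀ i, F.E (α i) = x i) (hx : LinearIndependent ℚ x) {A B : Submodule ℚ ℂ}
    (Λ : List (Finset (Fin N) × Finset (Fin M')))
    (hd : Λ.Pairwise fun a b => Disjoint a.1 b.1 ∧ Disjoint a.2 b.2)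
    (hrel : ∀ a ∈ Λ, ∑ i ∈ a.1, x i + ∑ j ∈ a.2, c j * l j = 0)
    (hdim : ∀ a ∈ Λ, finrank ℚ A < a.1.card ∨ finrank ℚ B < a.2.card) :
    ∀ A' B' : Submodule ℚ ℂ, A ≤ A' → B ≤ B' → FiniteDimensional ℚ A' →
      FiniteDimensional ℚ B' → (∀ a ∈ A', a ∈ F.K) → (∀ a ∈ Λ, ∀ i ∈ a.1, α i ∈ A') →
      (∀ a ∈ Λ, ∀ j ∈ a.2, l j ∈ B') →
      M.eRk (U F A' B') + finrank ℚ A + finrank ℚ B + Λ.length ≤
        M.eRk (U F A B) + finrank ℚ A' + finrank ℚ B' := by
  induction Λ with
  | nil =>
    intro A' B' h1 h2 h3 h4 h5 _ _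
    simpa using hGC F A A' B B' h1 h2 h3 h4 h5
  | cons a Λ ih =>
    intro A' B' h1 h2 h3 h4 h5 h6 h7
    rw [List.pairwise_cons] at hd
    have ih' := ih hd.2 (fun b hb => hrel b (List.mem_cons_of_mem _ hb))
      (fun b hb => hdim b (List.mem_cons_of_mem _ hb))
    have hra := hrel a List.mem_cons_self
    have hfA : FiniteDimensional ℚ A := Submodule.finiteDimensional_of_le h1
    have hfB : FiniteDimensional ℚ B := Submodule.finiteDimensional_of_le h2
    have hPα : ∀ i ∈ a.1, α i ∈ A' := h6 a List.mem_cons_self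
    have hQl : ∀ j ∈ a.2, l j ∈ B' := h7 a List.mem_cons_self
    rcases hdim a List.mem_cons_self with hA | hB
    · have hdis : Disjoint a.1 (un Prod.fst Λ) := by
        rw [Finset.disjoint_left]
        intro i hi hi'
        obtain ⟨b, hb, hib⟩ := mem_un.1 hi'
        exact Finset.disjoint_left.1 (hd.1 b hb).1 hi hib
      obtain ⟨i₀, hi₀, hnot⟩ := notin hαi hfA hdis hA
      obtain ⟨φ, hφ, hφA⟩ := functional hnot
      set A1 : Submodule ℚ ℂ := A' ⊓ LinearMap.ker φ with hA1
      have hα₀ : α i₀ ∈ A' := hPα i₀ hi₀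
      have hsubA : ∀ v ∈ A', v - ((φ v / φ (α i₀) : ℚ) : ℂ) * α i₀ ∈ A1 := by
        intro v hv
        refine ⟨?_, sub_ker hφ v⟩
        rw [← Rat.smul_def]
        exact Submodule.sub_mem _ hv (Submodule.smul_mem _ _ hα₀)
      have hsum1 : ∑ i : {i // i ∈ a.1}, F.E (α i) = ∑ i ∈ a.1, x i := by
        rw [← Finset.sum_coe_sort a.1]
        exact Finset.sum_congr rfl fun i _ => hxE i
      have hC : ∑ i : {i // i ∈ a.1}, F.E (α i) ∈ M.closure (U F A1 B') := by
        have e : ∑ i : {i // i ∈ a.1}, F.E (α i) = -∑ j ∈ a.2, c j * l j := by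
          rw [hsum1]; linear_combination hra
        rw [e]
        exact cl_neg (cl_sum _ _ fun j hj =>
          cl_mul (cl_empty_le (hc j)) (cl_self (Or.inr (hQl j hj))))
      have hxs : ∀ s : Finset {i // i ∈ a.1}, s.Nonempty → ∑ i ∈ s, F.E (α i) ≠ 0 := by
        intro s hs h0
        obtain ⟨i, hi⟩ := hs
        have h1 := linearIndependent_iff'.1
          (hx.comp ((↑) : {i // i ∈ a.1} → Fin N) Subtype.val_injective) s (fun _ => (1 : ℚ)) (by
          rw [← h0]
          exact Finset.sum_congr rfl fun i _ => by rw [one_smul, hxE]; rfl) i hi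
        exact one_ne_zero h1
      have h8 : F.E (α i₀) ∈ M.closure (U F A1 B') :=
        hypA F (ι := {i // i ∈ a.1}) (α := fun i => α i) (i₀ := ⟨i₀, hi₀⟩) (fun i => hα i) hxs hφ
          (fun i => cl_self (Or.inl ⟨_, hsubA _ (hPα i i.2), rfl⟩)) hC
      have h9 : U F A' B' ⊆ M.closure (U F A1 B') := by
        rintro _ (⟨v, hv, rfl⟩ | hv)
        · have e : v = (v - ((φ v / φ (α i₀) : ℚ) : ℂ) * α i₀) +
              ((φ v / φ (α i₀) : ℚ) : ℂ) * α i₀ := by ring
          have e2 : F.E v = F.E ((v - ((φ v / φ (α i₀) : ℚ) : ℂ) * α i₀) +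
              ((φ v / φ (α i₀) : ℚ) : ℂ) * α i₀) := congrArg F.E e
          rw [e2, F.E_add _ (F.K.sub_mem (h5 v hv) (rat_mem_K F _ (hα i₀))) _
            (rat_mem_K F _ (hα i₀))]
          refine cl_mul (cl_self (Or.inl ⟨_, hsubA v hv, rfl⟩)) ?_
          have h3 : M.closure {F.E (α i₀)} ⊆ M.closure (U F A1 B') := cl_le fun y hy => by
            rw [mem_singleton_iff] at hy; rw [hy]; exact h8
          exact h3 (E_rat F (hα i₀) _)
        · exact cl_self (Or.inr hv)
      have h10 : M.eRk (U F A' B') ≤ M.eRk (U F A1 B') := by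
        rw [← M.eRk_closure_eq (U F A1 B')]; exact M.eRk_mono h9
      have h11 := ih' A1 B'
        (le_inf h1 fun v hv => hφA v (Submodule.mem_sup_left hv)) h2
        (Submodule.finiteDimensional_of_le inf_le_left) h4 (fun v hv => h5 v hv.1)
        (fun b hb i hi => ⟨h6 b (List.mem_cons_of_mem _ hb) i hi,
          hφA _ (Submodule.mem_sup_right (subset_span ⟨i, mem_un.2 ⟨b, hb, hi⟩, rfl⟩))⟩)
        (fun b hb => h7 b (List.mem_cons_of_mem _ hb))
      have h12 : finrank ℚ A1 < finrank ℚ A' := by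
        refine Submodule.finrank_lt_finrank_of_lt (lt_of_le_of_ne inf_le_left fun h => ?_)
        have : α i₀ ∈ A1 := h ▸ hα₀
        exact hφ this.2
      have h13 : M.eRk (U F A' B') + finrank ℚ A + finrank ℚ B + (Λ.length : ℕ∞) ≤
          M.eRk (U F A B) + finrank ℚ A1 + finrank ℚ B' := le_trans (by gcongr) h11
      have h14 : M.eRk (U F A' B') + finrank ℚ A + finrank ℚ B + (((a :: Λ).length : ℕ) : ℕ∞) =
          (M.eRk (U F A' B') + finrank ℚ A + finrank ℚ B + (Λ.length : ℕ∞)) + 1 := by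
        rw [List.length_cons]; push_cast; ring
      rw [h14]
      calc _ ≤ (M.eRk (U F A B) + finrank ℚ A1 + finrank ℚ B') + 1 := by gcongr
        _ = M.eRk (U F A B) + ((finrank ℚ A1 + 1 : ℕ) : ℕ∞) + finrank ℚ B' := by push_cast; ring
        _ ≤ _ := by gcongr; exact h12
    · have hdis : Disjoint a.2 (un Prod.snd Λ) := by
        rw [Finset.disjoint_left]
        intro i hi hi'
        obtain ⟨b, hb, hib⟩ := mem_un.1 hi'
        exact Finset.disjoint_left.1 (hd.1 b hb).2 hi hib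
      obtain ⟨j₀, hj₀, hnot⟩ := notin hli hfB hdis hB
      obtain ⟨ψ, hψ, hψB⟩ := functional hnot
      set B1 : Submodule ℚ ℂ := B' ⊓ LinearMap.ker ψ with hB1
      have hl₀ : l j₀ ∈ B' := hQl j₀ hj₀
      have hsubB : ∀ v ∈ B', v - ((ψ v / ψ (l j₀) : ℚ) : ℂ) * l j₀ ∈ B1 := by
        intro v hv
        refine ⟨?_, sub_ker hψ v⟩
        rw [← Rat.smul_def]
        exact Submodule.sub_mem _ hv (Submodule.smul_mem _ _ hl₀)
      have hC : ∑ j : {j // j ∈ a.2}, c j * l j ∈ M.closure (U F A' B1) := by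
        have e : ∑ j : {j // j ∈ a.2}, c j * l j = -∑ i ∈ a.1, x i := by
          rw [Finset.sum_coe_sort a.2 (fun j => c j * l j)]
          linear_combination hra
        rw [e]
        exact cl_neg (cl_sum _ _ fun i hi =>
          cl_self (Or.inl ⟨α i, hPα i hi, hxE i⟩))
      have h8 : l j₀ ∈ M.closure (U F A' B1) :=
        hypB (ι := {j // j ∈ a.2}) (c := fun j => c j) (l := fun j => l j) (j₀ := ⟨j₀, hj₀⟩)
          (fun j => hc j) (hci.comp _ Subtype.val_injective) hψ
          (fun j => cl_self (Or.inr (hsubB _ (hQl j j.2)))) hC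
      have h9 : U F A' B' ⊆ M.closure (U F A' B1) := by
        rintro v (hv | hv)
        · exact cl_self (Or.inl hv)
        · have e : v = (v - ((ψ v / ψ (l j₀) : ℚ) : ℂ) * l j₀) +
              ((ψ v / ψ (l j₀) : ℚ) : ℂ) * l j₀ := by ring
          rw [e]
          exact cl_add (cl_self (Or.inr (hsubB v hv))) (cl_mul (cl_ratCast _ _) h8)
      have h10 : M.eRk (U F A' B') ≤ M.eRk (U F A' B1) := by
        rw [← M.eRk_closure_eq (U F A' B1)]; exact M.eRk_mono h9
      have h11 := ih' A' B1 h1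
        (le_inf h2 fun v hv => hψB v (Submodule.mem_sup_left hv)) h3
        (Submodule.finiteDimensional_of_le inf_le_left) h5
        (fun b hb => h6 b (List.mem_cons_of_mem _ hb))
        (fun b hb j hj => ⟨h7 b (List.mem_cons_of_mem _ hb) j hj,
          hψB _ (Submodule.mem_sup_right (subset_span ⟨j, mem_un.2 ⟨b, hb, hj⟩, rfl⟩))⟩)
      have h12 : finrank ℚ B1 < finrank ℚ B' := by
        refine Submodule.finrank_lt_finrank_of_lt (lt_of_le_of_ne inf_le_left fun h => ?_)
        have : l j₀ ∈ B1 := h ▸ hl₀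
        exact hψ this.2
      have h13 : M.eRk (U F A' B') + finrank ℚ A + finrank ℚ B + (Λ.length : ℕ∞) ≤
          M.eRk (U F A B) + finrank ℚ A' + finrank ℚ B1 := le_trans (by gcongr) h11
      have h14 : M.eRk (U F A' B') + finrank ℚ A + finrank ℚ B + (((a :: Λ).length : ℕ) : ℕ∞) =
          (M.eRk (U F A' B') + finrank ℚ A + finrank ℚ B + (Λ.length : ℕ∞)) + 1 := by
        rw [List.length_cons]; push_cast; ring
      rw [h14]
      calc _ ≤ (M.eRk (U F A B) + finrank ℚ A' + finrank ℚ B1) + 1 := by gcongr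
        _ = M.eRk (U F A B) + finrank ℚ A' + ((finrank ℚ B1 + 1 : ℕ) : ℕ∞) := by push_cast; ring
        _ ≤ _ := by gcongr; exact h12

end

end Pool.Agent.Helper35.GL
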