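import Pool.Agent.Helper35.GL.Main
import Pool.Agent.Helper35.GL.Def

/-! The field in which exactly the levels not above a given one hold. -/

set_option autoImplicit false

namespace Pool.Agent.Helper35.GL

open Pool.Agent.Helper35.EM Pool.Agent.Helper56.EM Pool.Agent.Helper35.GF Set Module Submodule

theorem overQ {ι : Type} {y : ι → ℂ} : AlgebraicIndependent Qbar y ↔ AlgebraicIndependent ℚ y :=
  ⟨fun h => h.restrictScalars (algebraMap ℚ Qbar).injective, fun h => h.extendScalars Qbar⟩

theorem Level.mono {F : ExpField} {a b a' b' : ℕ} (h : Level F a b) (ha : a' ≤ a) (hb : b' ≤ b) :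
    Level F a' b' := fun n m α l hn hm => h n m α l (hn.trans ha) (hm.trans hb)

theorem level_lw (F : ExpField) : LindemannWeierstrass F ↔ ∀ a, Level F a 0 := by
  constructor
  · intro h a n m α l hn hm h1 h2 h3 h4
    obtain rfl : m = 0 := by omega
    rw [overQ]
    have h5 := (h n α h1 h3).comp (Sum.elim id (fun j : Fin 0 => j.elim0))
      (by
        rintro (i | j) (i' | j')
        · intro h; exact congrArg Sum.inl h
        · exact j'.elim0
        · exact j.elim0
        · exact j.elim0)
    convert h5 using 1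
    funext i
    rcases i with i | j
    · rfl
    · exact j.elim0
  · intro h n α h1 h2
    have h3 := h n n 0 α Fin.elim0 le_rfl le_rfl h1 (fun j => j.elim0) h2
      (linearIndependent_empty_type)
    rw [overQ] at h3
    exact h3.comp Sum.inl Sum.inl_injective

theorem level_log (F : ExpField) : LogIndependence F ↔ ∀ b, Level F 0 b := by
  constructor
  · intro h b n m α l hn hm h1 h2 h3 h4
    obtain rfl : n = 0 := by omega
    rw [overQ]
    have h5 := (h m l h2 h4).comp (Sum.elim (fun j : Fin 0 => j.elim0) id)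
      (by
        rintro (i | j) (i' | j')
        · exact i.elim0
        · exact i.elim0
        · exact i'.elim0
        · intro h; exact congrArg Sum.inr h)
    convert h5 using 1
    funext i
    rcases i with i | j
    · exact i.elim0
    · rfl
  · intro h m l h1 h2
    have h3 := h m 0 m Fin.elim0 l le_rfl le_rfl (fun j => j.elim0) h1
      (linearIndependent_empty_type) h2
    rw [overQ] at h3
    exact h3.comp Sum.inr Sum.inr_injective

theorem exists_level (hGA : S_GA) (hGB : S_GB) (hGC : S_GC) (hGD : S_GD) (n m : ℕ) :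
    ∃ (F : ExpField) (α : Fin (n + 1) → ℂ) (l c : Fin (m + 1) → ℂ),
      (∀ i, IsAlgebraic ℚ (α i)) ∧ LinearIndependent ℚ α ∧ (∀ j, IsLog F (l j)) ∧
      LinearIndependent ℚ l ∧ (∀ j, IsAlgebraic ℚ (c j)) ∧
      ∑ i, F.E (α i) + ∑ j, c j * l j = 0 ∧
      ∀ a b, Level F a b ↔ ¬ (n + 1 ≤ a ∧ m + 1 ≤ b) := by
  obtain ⟨α, hα, hαi⟩ := hGA (n + 1)
  obtain ⟨c, hc, hci⟩ := hGA (m + 1)
  obtain ⟨b, hb, hbi⟩ := hGB (m + 1)
  have hc' : ∀ j, c j ∈ M.closure ∅ := fun j => mem_cl_empty.2 (hc j)
  obtain ⟨x, l, hrel, hx, hl, hrk⟩ := exists_pt n m c hc' (hci.ne_zero 0)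
  obtain ⟨F, -, -, -, hF, hG⟩ := point_suf hα hαi hb hbi hx (indepWithOne_of hl)
  have hlog : ∀ j, IsLog F (l j) := fun j => ⟨hF.mem j, by rw [hF.logs]; exact hb j⟩
  refine ⟨F, α, l, c, hα, hαi, hlog, hF.indep, hc, ?_, fun a' b' => ⟨?_, ?_⟩⟩
  · rw [← hrel]
    congr 1
    exact Finset.sum_congr rfl fun i _ => hF.exps i
  · rintro hL ⟨h1, h2⟩
    have h3 := hL (n + 1) (m + 1) α l h1 h2 hα hlog hαi hF.indep
    rw [overQ] at h3
    have hI : M.Indep (range (Sum.elim (fun i => F.E (α i)) l)) :=
      (algebraicIndependent_subtype_range h3.injective).2 h3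
    have h4 : M.eRk (range (Sum.elim (fun i => F.E (α i)) l)) = ((n + 1 + (m + 1) : ℕ) : ℕ∞) := by
      rw [hI.eRk_eq_encard, ← image_univ, h3.injective.encard_image, encard_univ]
      simp
    have h5 : range (Sum.elim (fun i => F.E (α i)) l) = range x ∪ range l := by
      rw [Sum.elim_range]
      congr 1
      have : (fun i => F.E (α i)) = x := funext hF.exps
      rw [this]
    rw [h5] at h4
    have h6 := M.eRk_mono (x0_cl hc' hrel)
    rw [M.eRk_closure_eq, h4] at h6
    have h7 : M.eRk (range l ∪ range fun i : Fin n => x i.succ) ≤ ((m + 1 + n : ℕ) : ℕ∞) := by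
      refine (M.eRk_union_le_eRk_add_eRk _ _).trans ?_
      push_cast
      refine add_le_add ?_ ?_
      · have := (M.eRk_le_encard _).trans (encard_range_le l)
        simpa using this
      · exact (M.eRk_le_encard _).trans (encard_range_le _)
    have h8 := h6.trans h7
    norm_cast at h8
    omega
  · intro hnot n' m' α' l' hn' hm' h1 h2 h3 h4
    rw [overQ]
    exact independent_of hGC hGD hα hαi hc' hci hrel hx hrk hF hG h1 h2 h3 h4
      fun h => hnot ⟨h.1.trans hn', h.2.trans hm'⟩

end Pool.Agent.Helper35.GL
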