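import Pool.Agent.Helper35.GL.Stm

/-! Hyperplanes of exponents and of logarithms. -/

set_option autoImplicit false

namespace Pool.Agent.Helper35.GL

open Pool.Agent.Helper35.EM Pool.Agent.Helper56.EM Pool.Agent.Helper35.GF Set
  Module Submodule


section

variable (F : ExpField)

theorem E_zero : F.E 0 = 1 := by
  have h1 := F.E_add 0 F.K.zero_mem 0 F.K.zero_mem
  rw [add_zero] at h1
  by_cases h : F.E 0 = 0
  · obtain ⟨x, hx, h2⟩ := F.E_surj 1 F.K.one_mem one_ne_zero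
    have h3 := F.E_add x hx 0 F.K.zero_mem
    rw [add_zero, h, mul_zero, h2] at h3
    exact absurd h3 one_ne_zero
  · exact (mul_left_cancel₀ h (by rw [mul_one]; exact h1)).symm

theorem E_neg_mul {x : ℂ} (hx : x ∈ F.K) : F.E x * F.E (-x) = 1 := by
  rw [← F.E_add x hx (-x) (F.K.neg_mem hx), add_neg_cancel, E_zero]

theorem E_ne {x : ℂ} (hx : x ∈ F.K) : F.E x ≠ 0 := left_ne_zero_of_mul_eq_one (E_neg_mul F hx)

theorem E_nat {x : ℂ} (hx : x ∈ F.K) (n : ℕ) : F.E (n * x) = F.E x ^ n := by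
  induction n with
  | zero => simp [E_zero]
  | succ n ih =>
    have : ((n + 1 : ℕ) : ℂ) * x = n * x + x := by push_cast; ring
    rw [this, F.E_add _ (F.K.mul_mem (natCast_mem F.K n) hx) _ hx, ih, pow_succ]

theorem E_int {x : ℂ} (hx : x ∈ F.K) (p : ℤ) : F.E (p * x) = F.E x ^ p := by
  obtain ⟨n, rfl | rfl⟩ := p.eq_nat_or_neg
  · rw [zpow_natCast, ← E_nat F hx]; simp
  · have h1 := E_neg_mul F (F.K.mul_mem (natCast_mem F.K n) hx)
    rw [E_nat F hx] at h1
    rw [zpow_neg, zpow_natCast]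
    have h2 : ((-(n : ℤ) : ℤ) : ℂ) * x = -(n * x) := by push_cast; ring
    rw [h2]
    exact (inv_eq_of_mul_eq_one_right h1).symm

theorem rat_mem_K (q : ℚ) {x : ℂ} (hx : x ∈ F.K) : (q : ℂ) * x ∈ F.K :=
  F.K.mul_mem (SubfieldClass.ratCast_mem F.K q) hx

theorem E_rat {x : ℂ} (hx : x ∈ F.K) (q : ℚ) : F.E (q * x) ∈ M.closure {F.E x} := by
  apply cl_of_pow (n := q.den) q.den_ne_zero
  rw [← E_nat F (rat_mem_K F q hx)]
  have h1 : (q.den : ℂ) * (q * x) = (q.num : ℂ) * x := by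
    have h2 : (q.den : ℂ) * (q : ℂ) = (q.num : ℂ) := by
      exact_mod_cast q.den_mul_eq_num
    rw [← mul_assoc, h2]
  rw [h1, E_int F hx]
  have h2 : F.E x ∈ M.closure {F.E x} := cl_self rfl
  obtain ⟨n, h3 | h3⟩ := q.num.eq_nat_or_neg
  · rw [h3, zpow_natCast]; exact cl_pow n h2
  · rw [h3, zpow_neg, zpow_natCast]; exact cl_inv (cl_pow n h2)

end

/-- sum of powers of a generic number -/
theorem pow_rel {T : Set ℂ} {z : ℂ} (hz : z ∉ M.closure T) {ι : Type} [Fintype ι] (κ : ι → ℂ)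
    (hκ : ∀ i, κ i ∈ M.closure T) (e : ι → ℕ) {c : ℂ} (hc : c ∈ M.closure T) {N k : ℕ}
    (hN : k ≠ N) (h : ∑ i, κ i * z ^ e i + c * z ^ N = 0) :
    ∑ i ∈ Finset.univ.filter (fun i => e i = k), κ i = 0 := by
  classical
  set L := clF T with hL
  let κ' : ι → L := fun i => ⟨κ i, mem_cl.1 (hκ i)⟩
  let c' : L := ⟨c, mem_cl.1 hc⟩
  let P : Polynomial L := ∑ i, Polynomial.C (κ' i) * Polynomial.X ^ e i +
    Polynomial.C c' * Polynomial.X ^ N
  have hP : Polynomial.aeval z P = 0 := by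
    simp only [P, map_add, map_sum, map_mul, map_pow, Polynomial.aeval_C, Polynomial.aeval_X]
    exact h
  have hP0 : P = 0 := by
    by_contra hne
    apply hz
    rw [mem_cl]
    exact Pool.Agent.Helper56.SA.cl_idem ⟨P, hne, hP⟩
  have h1 : P.coeff k = 0 := by rw [hP0, Polynomial.coeff_zero]
  have h2 : P.coeff k = ∑ i ∈ Finset.univ.filter (fun i => e i = k), κ' i := by
    simp only [P, Polynomial.coeff_add, Polynomial.finsetSum_coeff, Polynomial.coeff_C_mul,
      Polynomial.coeff_X_pow, mul_ite, mul_one, mul_zero]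
    rw [if_neg hN, add_zero, Finset.sum_filter]
    exact Finset.sum_congr rfl fun i _ => by
      by_cases h : e i = k
      · rw [if_pos h.symm, if_pos h]
      · rw [if_neg (Ne.symm h), if_neg h]
  rw [h2] at h1
  have h3 := congrArg Subtype.val h1
  simpa [κ'] using h3

theorem hypA (F : ExpField) {ι : Type} [Fintype ι] {α : ι → ℂ} (hα : ∀ i, α i ∈ F.K)
    (hx : ∀ s : Finset ι, s.Nonempty → ∑ i ∈ s, F.E (α i) ≠ 0) {φ : ℂ →ₗ[ℚ] ℚ}
    {i₀ : ι} (hi : φ (α i₀) ≠ 0) {T : Set ℂ}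
    (hT : ∀ i, F.E (α i - ((φ (α i) / φ (α i₀) : ℚ) : ℂ) * α i₀) ∈ M.closure T)
    (hC : ∑ i, F.E (α i) ∈ M.closure T) : F.E (α i₀) ∈ M.closure T := by
  classical
  set w : ι → ℚ := fun i => φ (α i) / φ (α i₀) with hw
  set D : ℕ := ∏ i, (w i).den with hD
  have hD0 : D ≠ 0 := Finset.prod_ne_zero_iff.2 fun i _ => (w i).den_ne_zero
  have hp : ∀ i, ∃ p : ℤ, (w i) * D = p := by
    intro i
    obtain ⟨c, hc⟩ : (w i).den ∣ D := Finset.dvd_prod_of_mem _ (Finset.mem_univ i)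
    refine ⟨(w i).num * c, ?_⟩
    rw [hc]
    push_cast
    rw [← mul_assoc, Rat.mul_den_eq_num]
  choose p hp using hp
  have hDC : (D : ℂ) ≠ 0 := Nat.cast_ne_zero.2 hD0
  set y : ℂ := ((1 / D : ℚ) : ℂ) * α i₀ with hy
  have hyK : y ∈ F.K := rat_mem_K F _ (hα i₀)
  have hDy : (D : ℂ) * y = α i₀ := by
    rw [hy]
    push_cast
    field_simp
  set z := F.E y with hz
  have hzD : F.E (α i₀) = z ^ D := by rw [← hDy, E_nat F hyK]
  have hwi₀ : w i₀ = 1 := div_self hi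
  have hpi₀ : p i₀ = D := by
    have := hp i₀
    rw [hwi₀, one_mul] at this
    exact_mod_cast this.symm
  have hz0 : z ≠ 0 := E_ne F hyK
  by_contra hcon
  have hzT : z ∉ M.closure T := fun h => hcon (by rw [hzD]; exact cl_pow D h)
  set κ : ι → ℂ := fun i => F.E (α i - (w i : ℂ) * α i₀) with hκ
  have hE : ∀ i, F.E (α i) = κ i * z ^ p i := by
    intro i
    have h1 : α i = (α i - (w i : ℂ) * α i₀) + (p i : ℂ) * y := by
      have h2 : (p i : ℂ) = (w i : ℂ) * D := by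
        have := hp i
        exact_mod_cast this.symm
      rw [h2, mul_assoc, hDy]; ring
    have h3 : F.E (α i) = F.E ((α i - (w i : ℂ) * α i₀) + (p i : ℂ) * y) := congrArg F.E h1
    rw [h3, F.E_add _ (F.K.sub_mem (hα i) (rat_mem_K F _ (hα i₀))) _
      (F.K.mul_mem (intCast_mem F.K _) hyK), E_int F hyK]
  set N : ℕ := ∑ i, (p i).natAbs with hN
  have hpN : ∀ i, 0 ≤ p i + N := by
    intro i
    have h1 : (p i).natAbs ≤ N :=
      Finset.single_le_sum (f := fun i => (p i).natAbs) (fun _ _ => Nat.zero_le _)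
        (Finset.mem_univ i)
    omega
  set e : ι → ℕ := fun i => (p i + N).toNat with he
  have hez : ∀ i, (e i : ℤ) = p i + N := fun i => Int.toNat_of_nonneg (hpN i)
  have hzz : ∀ i, z ^ e i = z ^ p i * z ^ N := by
    intro i
    rw [← zpow_natCast z (e i), hez, zpow_add₀ hz0, zpow_natCast]
  set C : ℂ := ∑ i, F.E (α i) with hCdef
  have hrel : ∑ i, κ i * z ^ e i + (-C) * z ^ N = 0 := by
    have h1 : ∑ i, κ i * z ^ e i = C * z ^ N := by
      rw [hCdef, Finset.sum_mul]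
      refine Finset.sum_congr rfl fun i _ => ?_
      rw [hzz, hE i]; ring
    rw [h1]; ring
  have h1 := pow_rel hzT κ hT e (cl_neg hC) (k := D + N) (N := N) (by omega) hrel
  have hfil : (Finset.univ.filter fun i => e i = D + N) = Finset.univ.filter fun i => p i = D := by
    ext i
    simp only [Finset.mem_filter, Finset.mem_univ, true_and]
    have := hez i
    omega
  rw [hfil] at h1
  apply hx (Finset.univ.filter fun i => p i = D) ⟨i₀, by simp [hpi₀]⟩
  have h2 : ∑ i ∈ Finset.univ.filter (fun i => p i = D), F.E (α i) =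
      (∑ i ∈ Finset.univ.filter (fun i => p i = D), κ i) * z ^ D := by
    rw [Finset.sum_mul]
    refine Finset.sum_congr rfl fun i hi' => ?_
    rw [hE i, (Finset.mem_filter.1 hi').2, zpow_natCast]
  rw [h2, h1, zero_mul]

theorem hypB {ι : Type} [Fintype ι] {c l : ι → ℂ} (hc : ∀ j, c j ∈ M.closure ∅)
    (hci : LinearIndependent ℚ c) {ψ : ℂ →ₗ[ℚ] ℚ} {j₀ : ι} (hj : ψ (l j₀) ≠ 0) {T : Set ℂ}
    (hT : ∀ j, l j - ((ψ (l j) / ψ (l j₀) : ℚ) : ℂ) * l j₀ ∈ M.closure T)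
    (hC : ∑ j, c j * l j ∈ M.closure T) : l j₀ ∈ M.closure T := by
  set w : ι → ℚ := fun j => ψ (l j) / ψ (l j₀) with hw
  have hwj : w j₀ = 1 := div_self hj
  have h1 : ∑ j, (w j : ℂ) * c j ≠ 0 := by
    intro h
    have h2 := Fintype.linearIndependent_iff.1 hci w (by
      rw [← h]
      exact Finset.sum_congr rfl fun j _ => by rw [Rat.smul_def]) j₀
    rw [hwj] at h2
    exact one_ne_zero h2
  have h2 : (∑ j, (w j : ℂ) * c j) * l j₀ = ∑ j, c j * l j -
      ∑ j, c j * (l j - (w j : ℂ) * l j₀) := by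
    rw [Finset.sum_mul, ← Finset.sum_sub_distrib]
    exact Finset.sum_congr rfl fun j _ => by ring
  have h3 : (∑ j, (w j : ℂ) * c j) * l j₀ ∈ M.closure T := by
    rw [h2]
    exact cl_sub hC (cl_sum _ _ fun j _ => cl_mul (cl_empty_le (hc j)) (hT j))
  rwa [cl_mul_iff (cl_sum _ _ fun j _ => cl_mul (cl_ratCast _ _) (cl_empty_le (hc j))) h1] at h3

end Pool.Agent.Helper35.GL
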