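import Pool.Agent.Helper35.GL.Pts
import Pool.Agent.Helper35.GL.Fin

/-! The field in which exactly the levels not above some given ones hold. -/

set_option autoImplicit false

namespace Pool.Agent.Helper35.GL

open Pool.Agent.Helper35.EM Pool.Agent.Helper56.EM Pool.Agent.Helper35.GF Set Module Submodule

/-- the rank of the large spaces -/
theorem big_rank (hGD : S_GD) {N M' : ℕ} {α x : Fin N → ℂ} {l b : Fin M' → ℂ} {F : ExpField}
    (hF : Point F α b x l) (hG : Generated F α x l) {n' m' p q : ℕ} {α' : Fin n' → ℂ}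
    {l' : Fin m' → ℂ} (hα' : ∀ i, IsAlgebraic ℚ (α' i)) (hl' : ∀ j, IsLog F (l' j))
    {h : Fin p → ℂ} {k : Fin q → ℂ} (hh : ∀ i, h i ∈ range α') (hk : ∀ j, k j ∈ range l')
    (hhi : LinearIndependent ℚ (Fin.append α h)) (hki : LinearIndependent ℚ (Fin.append l k)) :
    M.eRk (range x ∪ range l) + ((p + q : ℕ) : ℕ∞) ≤
      M.eRk (U F (span ℚ (range α') ⊔ span ℚ (range α)) (span ℚ (range l') ⊔ span ℚ (range l))) := by
  have h1 := hG p q h k (fun i => by obtain ⟨i', hi'⟩ := hh i; rw [← hi']; exact hα' i')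
    (fun j => by obtain ⟨j', hj'⟩ := hk j; rw [← hj']; exact hl' j') hhi hki
  refine (hGD _ ((finite_range x).union (finite_range l)) _ _ h1).trans (M.eRk_mono ?_)
  rintro _ ((⟨i, rfl⟩ | ⟨j, rfl⟩) | ⟨r, rfl⟩)
  · exact Or.inl ⟨α i, Submodule.mem_sup_right (subset_span ⟨i, rfl⟩), hF.exps i⟩
  · exact Or.inr (Submodule.mem_sup_right (subset_span ⟨j, rfl⟩))
  · refine Fin.addCases (fun i => ?_) (fun j => ?_) r
    · rw [Fin.append_left]
      obtain ⟨i', hi'⟩ := hh i
      exact Or.inl ⟨h i, Submodule.mem_sup_left (subset_span ⟨i', hi'⟩), rfl⟩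
    · rw [Fin.append_right]
      obtain ⟨j', hj'⟩ := hk j
      exact Or.inr (Submodule.mem_sup_left (subset_span ⟨j', hj'⟩))

/-- from the rank to algebraic independence -/
theorem ind_of_rank {F : ExpField} {n' m' : ℕ} {α' : Fin n' → ℂ} {l' : Fin m' → ℂ}
    (hα' : ∀ i, α' i ∈ F.K)
    (h : ((n' + m' : ℕ) : ℕ∞) ≤ M.eRk (U F (span ℚ (range α')) (span ℚ (range l')))) :
    AlgebraicIndependent ℚ (Sum.elim (fun i => F.E (α' i)) l') := by
  have hfin : AlgebraicIndependent ℚ (Fin.append (fun i => F.E (α' i)) l') := by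
    apply algInd_of_rk
    refine h.trans ?_
    rw [← M.eRk_closure_eq (range _)]
    apply M.eRk_mono
    have hle : ∀ i, F.E (α' i) ∈ range (Fin.append (fun i => F.E (α' i)) l') := fun i =>
      ⟨Fin.castAdd _ i, Fin.append_left _ _ _⟩
    have hle' : ∀ j, l' j ∈ range (Fin.append (fun i => F.E (α' i)) l') := fun j =>
      ⟨Fin.natAdd _ j, Fin.append_right _ _ _⟩
    rintro _ (⟨v, hv, rfl⟩ | hv)
    · have h1 := (E_span F hα' hv).2
      exact cl_mono (by rintro _ ⟨i, rfl⟩; exact hle i) h1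
    · exact cl_mono (by rintro _ ⟨i, rfl⟩; exact hle' i) (span_cl hv)
  have h1 := hfin.comp finSumFinEquiv finSumFinEquiv.injective
  convert h1 using 1
  funext i
  rcases i with i | j
  · simp
  · simp

theorem exists_levels (hGA : S_GA) (hGB : S_GB) (hGC : S_GC) (hGD : S_GD) {r : ℕ}
    (n m : Fin r → ℕ) : ∃ F : ExpField, ∀ a b, Level F a b ↔ ∀ k, ¬ (n k + 1 ≤ a ∧ m k + 1 ≤ b) := by
  obtain ⟨α, hα, hαi⟩ := hGA (tot n)
  obtain ⟨c, hc, hci⟩ := hGA (tot m)
  obtain ⟨b, hb, hbi⟩ := hGB (tot m)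
  have hc' : ∀ j, c j ∈ M.closure ∅ := fun j => mem_cl_empty.2 (hc j)
  obtain ⟨x, l, hrel, hx, hl, hrk⟩ := exists_pts n m c hc' (fun j => hci.ne_zero j)
  obtain ⟨F, -, -, -, hF, hG⟩ := point_suf hα hαi hb hbi hx (indepWithOne_of hl)
  have hlog : ∀ j, IsLog F (l j) := fun j => ⟨hF.mem j, by rw [hF.logs]; exact hb j⟩
  have hαK : ∀ i, α i ∈ F.K := fun i => alg_mem F (hα i)
  refine ⟨F, fun a' b' => ⟨?_, ?_⟩⟩
  · rintro hL k ⟨h1, h2⟩
    have h3 := hL (n k + 1) (m k + 1) (fun i => α (bl n k i)) (fun j => l (bl m k j)) h1 h2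
      (fun i => hα _) (fun j => hlog _) (hαi.comp _ (bl_injective n k))
      (hF.indep.comp _ (bl_injective m k))
    rw [overQ] at h3
    have hI : M.Indep (range (Sum.elim (fun i => F.E (α (bl n k i))) fun j => l (bl m k j))) :=
      (algebraicIndependent_subtype_range h3.injective).2 h3
    have h4 : M.eRk (range (Sum.elim (fun i => F.E (α (bl n k i))) fun j => l (bl m k j))) =
        ((n k + 1 + (m k + 1) : ℕ) : ℕ∞) := by
      rw [hI.eRk_eq_encard, ← image_univ, h3.injective.encard_image, encard_univ]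
      simp
    have h5 : range (Sum.elim (fun i => F.E (α (bl n k i))) fun j => l (bl m k j)) =
        range (fun i => x (bl n k i)) ∪ range fun j => l (bl m k j) := by
      rw [Sum.elim_range]
      congr 1
      have : (fun i => F.E (α (bl n k i))) = fun i => x (bl n k i) := funext fun i => hF.exps _
      rw [this]
    rw [h5] at h4
    have h6 := M.eRk_mono (x0_cl (x := fun i => x (bl n k i)) (l := fun j => l (bl m k j))
      (c := fun j => c (bl m k j)) (fun j => hc' _) (hrel k))
    rw [M.eRk_closure_eq, h4] at h6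
    have h7 : M.eRk (range (fun j => l (bl m k j)) ∪ range fun i : Fin (n k) =>
        x (bl n k i.succ)) ≤ ((m k + 1 + n k : ℕ) : ℕ∞) := by
      refine (M.eRk_union_le_eRk_add_eRk _ _).trans ?_
      push_cast
      refine add_le_add ?_ ?_
      · have := (M.eRk_le_encard _).trans (encard_range_le fun j => l (bl m k j))
        simpa using this
      · exact (M.eRk_le_encard _).trans (encard_range_le _)
    have h8 := h6.trans h7
    norm_cast at h8
    omega
  · intro hnot n' m' α' l' hn' hm' hα' hl' hαi' hli'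
    rw [overQ]
    have hαK' : ∀ i, α' i ∈ F.K := fun i => alg_mem F (hα' i)
    apply ind_of_rank hαK'
    obtain ⟨p, h, hh, hhi, hsp⟩ := ext_family hαi α'
    obtain ⟨q, k, hk, hki, hkp⟩ := ext_family hF.indep l'
    have hR := big_rank hGD hF hG hα' hl' hh hk hhi hki
    set A : Submodule ℚ ℂ := span ℚ (range α') with hA
    set B : Submodule ℚ ℂ := span ℚ (range l') with hB
    set A2 : Submodule ℚ ℂ := A ⊔ span ℚ (range α) with hA2
    set B2 : Submodule ℚ ℂ := B ⊔ span ℚ (range l) with hB2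
    have hdA : finrank ℚ A = n' := by
      have := finrank_span_eq_card hαi'
      simpa using this
    have hdB : finrank ℚ B = m' := by
      have := finrank_span_eq_card hli'
      simpa using this
    have hdA2 : finrank ℚ A2 = tot n + p := by
      rw [← hsp, finrank_span_eq_card hhi]; simp
    have hdB2 : finrank ℚ B2 = tot m + q := by
      rw [← hkp, finrank_span_eq_card hki]; simp
    have hfA2 : FiniteDimensional ℚ A2 := by
      rw [← hsp]; exact FiniteDimensional.span_of_finite ℚ (finite_range _)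
    have hfB2 : FiniteDimensional ℚ B2 := by
      rw [← hkp]; exact FiniteDimensional.span_of_finite ℚ (finite_range _)
    have hA2K : ∀ a ∈ A2, a ∈ F.K := by
      intro a ha
      obtain ⟨u, hu, v, hv, rfl⟩ := Submodule.mem_sup.1 ha
      exact F.K.add_mem (E_span F hαK' hu).1 (E_span F hαK hv).1
    set Λ : List (Finset (Fin (tot n)) × Finset (Fin (tot m))) :=
      List.ofFn fun k => (blk n k, blk m k) with hΛ
    have hlen : Λ.length = r := List.length_ofFn
    have hmem : ∀ a ∈ Λ, ∃ k, a = (blk n k, blk m k) := by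
      intro a ha
      obtain ⟨k, hk⟩ := (List.mem_ofFn' _ _).1 ha
      exact ⟨k, hk.symm⟩
    have hel := elim (A := A) (B := B) hGC hαK hαi hF.indep hc' hci hF.exps hx.linearIndependent Λ
      (List.pairwise_ofFn.2 fun i j hij => ⟨disj_blk n hij.ne, disj_blk m hij.ne⟩)
      (fun a ha => by
        obtain ⟨k, rfl⟩ := hmem a ha
        rw [sum_blk, sum_blk]; exact hrel k)
      (fun a ha => by
        obtain ⟨k, rfl⟩ := hmem a ha
        rw [hdA, hdB, card_blk, card_blk]
        have := hnot k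
        by_contra hcon
        push Not at hcon
        exact this ⟨hcon.1.trans hn', hcon.2.trans hm'⟩)
      A2 B2 le_sup_left le_sup_left hfA2 hfB2 hA2K
      (fun a _ i _ => Submodule.mem_sup_right (subset_span ⟨i, rfl⟩))
      (fun a _ j _ => Submodule.mem_sup_right (subset_span ⟨j, rfl⟩))
    rw [hlen, hdA, hdB, hdA2, hdB2] at hel
    have h1 : ((tot n + tot m + (p + q) : ℕ) : ℕ∞) ≤ M.eRk (U F A2 B2) + r := by
      calc ((tot n + tot m + (p + q) : ℕ) : ℕ∞) = ((tot n + tot m : ℕ) : ℕ∞) + ((p + q : ℕ) : ℕ∞) := by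
            push_cast; ring
        _ ≤ (M.eRk (range x ∪ range l) + r) + ((p + q : ℕ) : ℕ∞) := by gcongr
        _ = (M.eRk (range x ∪ range l) + ((p + q : ℕ) : ℕ∞)) + r := by ring
        _ ≤ _ := by gcongr
    have h2 : ((tot n + tot m + (p + q) : ℕ) : ℕ∞) + n' + m' ≤
        M.eRk (U F A B) + (tot n + p : ℕ) + (tot m + q : ℕ) := by
      calc ((tot n + tot m + (p + q) : ℕ) : ℕ∞) + n' + m' ≤ (M.eRk (U F A2 B2) + r) + n' + m' := by
            gcongr
        _ = M.eRk (U F A2 B2) + n' + m' + r := by ring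
        _ ≤ _ := hel
    generalize M.eRk (U F A B) = y at h2 ⊢
    induction y using ENat.recTopCoe with
    | top => simp
    | coe y =>
      norm_cast at h2 ⊢
      omega

end Pool.Agent.Helper35.GL
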