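import Pool.Agent.Helper35.GL.Pt

/-! The levels which hold in the field of a linear relation. -/

set_option autoImplicit false

namespace Pool.Agent.Helper35.GL

open Pool.Agent.Helper35.EM Pool.Agent.Helper56.EM Pool.Agent.Helper35.GF Set Module Submodule

theorem E_span (F : ExpField) {k : ℕ} {g : Fin k → ℂ} (hg : ∀ i, g i ∈ F.K) {a : ℂ}
    (ha : a ∈ span ℚ (range g)) : a ∈ F.K ∧ F.E a ∈ M.closure (range fun i => F.E (g i)) := by
  induction ha using Submodule.span_induction with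
  | mem v hv => obtain ⟨i, rfl⟩ := hv; exact ⟨hg i, cl_self ⟨i, rfl⟩⟩
  | zero => exact ⟨F.K.zero_mem, by rw [E_zero]; exact cl_one _⟩
  | add v w _ _ hv hw =>
    exact ⟨F.K.add_mem hv.1 hw.1, by rw [F.E_add _ hv.1 _ hw.1]; exact cl_mul hv.2 hw.2⟩
  | smul q v _ hv =>
    rw [Rat.smul_def]
    refine ⟨rat_mem_K F q hv.1, ?_⟩
    have h1 : M.closure {F.E v} ⊆ M.closure (range fun i => F.E (g i)) := cl_le fun y hy => by
      rw [mem_singleton_iff] at hy; rw [hy]; exact hv.2
    exact h1 (E_rat F hv.1 q)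

theorem alg_mem (F : ExpField) {a : ℂ} (ha : IsAlgebraic ℚ a) : a ∈ F.K :=
  F.closed a (ha.tower_top _)

section

variable {n m : ℕ} {α x : Fin (n + 1) → ℂ} {c l b : Fin (m + 1) → ℂ} {F : ExpField}

theorem exists_notMem {k k' : ℕ} {g : Fin k → ℂ} (hg : LinearIndependent ℚ g) (g' : Fin k' → ℂ)
    (h : ¬ k ≤ k') : ∃ i, g i ∉ span ℚ (range g') := by
  by_contra hcon
  push Not at hcon
  apply h
  have h1 : span ℚ (range g) ≤ span ℚ (range g') := by
    rw [span_le]; rintro _ ⟨i, rfl⟩; exact hcon i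
  have hf : FiniteDimensional ℚ (span ℚ (range g')) :=
    FiniteDimensional.span_of_finite ℚ (finite_range g')
  have h2 := Submodule.finrank_mono h1
  rw [finrank_span_eq_card hg, Fintype.card_fin] at h2
  refine h2.trans ?_
  have h3 := finrank_range_le_card (R := ℚ) g'
  rw [Fintype.card_fin] at h3
  exact h3

theorem functional {A : Submodule ℚ ℂ} {v : ℂ} (hv : v ∉ A) :
    ∃ φ : ℂ →ₗ[ℚ] ℚ, φ v ≠ 0 ∧ ∀ a ∈ A, φ a = 0 := by
  obtain ⟨φ, h1, h2⟩ := A.exists_dual_map_eq_bot_of_notMem hv inferInstance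
  refine ⟨φ, h1, fun a ha => ?_⟩
  have h3 := Submodule.mem_map_of_mem (f := φ) ha
  rw [h2] at h3
  exact h3

theorem sub_ker {φ : ℂ →ₗ[ℚ] ℚ} {v : ℂ} (hv : φ v ≠ 0) (a : ℂ) :
    φ (a - ((φ a / φ v : ℚ) : ℂ) * v) = 0 := by
  rw [← Rat.smul_def, map_sub, map_smul, smul_eq_mul]
  field_simp
  ring

theorem independent_of (hGC : S_GC) (hGD : S_GD) (hα : ∀ i, IsAlgebraic ℚ (α i))
    (hαi : LinearIndependent ℚ α) (hc : ∀ j, c j ∈ M.closure ∅) (hci : LinearIndependent ℚ c)
    (hrel : ∑ i, x i + ∑ j, c j * l j = 0) (hx : AlgebraicIndependent ℚ x)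
    (hrk : ((n + 1 + m : ℕ) : ℕ∞) ≤ M.eRk (range x ∪ range l)) (hF : Point F α b x l)
    (hG : Generated F α x l) {n' m' : ℕ} {α' : Fin n' → ℂ} {l' : Fin m' → ℂ}
    (hα' : ∀ i, IsAlgebraic ℚ (α' i)) (hl' : ∀ j, IsLog F (l' j)) (hαi' : LinearIndependent ℚ α')
    (hli' : LinearIndependent ℚ l') (hnm : ¬ (n + 1 ≤ n' ∧ m + 1 ≤ m')) :
    AlgebraicIndependent ℚ (Sum.elim (fun i => F.E (α' i)) l') := by
  have hαK : ∀ i, α i ∈ F.K := fun i => alg_mem F (hα i)
  have hαK' : ∀ i, α' i ∈ F.K := fun i => alg_mem F (hα' i)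
  obtain ⟨p, h, hh, hhi, hsp⟩ := ext_family hαi α'
  obtain ⟨q, k, hk, hki, hkp⟩ := ext_family hF.indep l'
  set A : Submodule ℚ ℂ := span ℚ (range α') with hA
  set B : Submodule ℚ ℂ := span ℚ (range l') with hB
  set A2 : Submodule ℚ ℂ := A ⊔ span ℚ (range α) with hA2
  set B2 : Submodule ℚ ℂ := B ⊔ span ℚ (range l) with hB2
  have hdA : finrank ℚ A = n' := by
    have := finrank_span_eq_card hαi'
    simpa using this
  have hdB : finrank ℚ B = m' := by
    have := finrank_span_eq_card hli'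
    simpa using this
  have hdA2 : finrank ℚ A2 = n + 1 + p := by
    rw [← hsp, finrank_span_eq_card hhi]; simp
  have hdB2 : finrank ℚ B2 = m + 1 + q := by
    rw [← hkp, finrank_span_eq_card hki]; simp
  have hfA2 : FiniteDimensional ℚ A2 := by
    rw [← hsp]; exact FiniteDimensional.span_of_finite ℚ (finite_range _)
  have hfB2 : FiniteDimensional ℚ B2 := by
    rw [← hkp]; exact FiniteDimensional.span_of_finite ℚ (finite_range _)
  have hA2K : ∀ a ∈ A2, a ∈ F.K := by
    intro a ha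
    obtain ⟨u, hu, v, hv, rfl⟩ := Submodule.mem_sup.1 ha
    exact F.K.add_mem (E_span F hαK' hu).1 (E_span F hαK hv).1
  have hαA2 : ∀ i, α i ∈ A2 := fun i => Submodule.mem_sup_right (subset_span ⟨i, rfl⟩)
  have hlB2 : ∀ j, l j ∈ B2 := fun j => Submodule.mem_sup_right (subset_span ⟨j, rfl⟩)
  have hxE : ∀ i, x i = F.E (α i) := fun i => (hF.exps i).symm
  -- the rank of the large spaces
  have hR2 : ((n + 1 + m + (p + q) : ℕ) : ℕ∞) ≤ M.eRk (U F A2 B2) := by
    have h1 := hG p q h k (fun i => by obtain ⟨i', hi'⟩ := hh i; rw [← hi']; exact hα' i')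
      (fun j => by obtain ⟨j', hj'⟩ := hk j; rw [← hj']; exact hl' j') hhi hki
    have h2 := hGD _ ((finite_range x).union (finite_range l)) _ _ h1
    have h3 : M.eRk (range x ∪ range l ∪ range (Fin.append (fun i => F.E (h i)) k)) ≤
        M.eRk (U F A2 B2) := by
      apply M.eRk_mono
      rintro _ ((⟨i, rfl⟩ | ⟨j, rfl⟩) | ⟨r, rfl⟩)
      · exact Or.inl ⟨α i, hαA2 i, hF.exps i⟩
      · exact Or.inr (hlB2 j)
      · refine Fin.addCases (fun i => ?_) (fun j => ?_) r
        · rw [Fin.append_left]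
          obtain ⟨i', hi'⟩ := hh i
          exact Or.inl ⟨h i, Submodule.mem_sup_left (subset_span ⟨i', hi'⟩), rfl⟩
        · rw [Fin.append_right]
          obtain ⟨j', hj'⟩ := hk j
          exact Or.inr (Submodule.mem_sup_left (subset_span ⟨j', hj'⟩))
    refine le_trans ?_ (h2.trans h3)
    push_cast at hrk ⊢
    gcongr
  have hmain : ((n' + m' : ℕ) : ℕ∞) ≤ M.eRk (U F A B) := by
    by_cases hn : n + 1 ≤ n'
    · -- not all logarithms
      have hm : ¬ m + 1 ≤ m' := fun h => hnm ⟨hn, h⟩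
      obtain ⟨j₀, hj₀⟩ := exists_notMem hF.indep l' hm
      obtain ⟨ψ, hψ, hψB⟩ := functional hj₀
      set B1 : Submodule ℚ ℂ := B2 ⊓ LinearMap.ker ψ with hB1
      have hBB1 : B ≤ B1 := le_inf le_sup_left fun v hv => hψB v hv
      have hfB1 : FiniteDimensional ℚ B1 := Submodule.finiteDimensional_of_le inf_le_left
      have hsubB : ∀ v ∈ B2, v - ((ψ v / ψ (l j₀) : ℚ) : ℂ) * l j₀ ∈ B1 := by
        intro v hv
        refine ⟨?_, sub_ker hψ v⟩
        rw [← Rat.smul_def]
        exact Submodule.sub_mem _ hv (Submodule.smul_mem _ _ (hlB2 j₀))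
      have hC : ∑ j, c j * l j ∈ M.closure (U F A2 B1) := by
        have e : ∑ j, c j * l j = -∑ i, x i := by linear_combination hrel
        rw [e]
        exact cl_neg (cl_sum _ _ fun i _ => cl_self (Or.inl ⟨α i, hαA2 i, hF.exps i⟩))
      have h1 : l j₀ ∈ M.closure (U F A2 B1) :=
        hypB hc hci hψ (fun j => cl_self (Or.inr (hsubB _ (hlB2 j)))) hC
      have h2 : U F A2 B2 ⊆ M.closure (U F A2 B1) := by
        rintro v (hv | hv)
        · exact cl_self (Or.inl hv)
        · have e : v = (v - ((ψ v / ψ (l j₀) : ℚ) : ℂ) * l j₀) +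
              ((ψ v / ψ (l j₀) : ℚ) : ℂ) * l j₀ := by ring
          rw [e]
          exact cl_add (cl_self (Or.inr (hsubB v hv))) (cl_mul (cl_ratCast _ _) h1)
      have h3 : M.eRk (U F A2 B2) ≤ M.eRk (U F A2 B1) := by
        rw [← M.eRk_closure_eq (U F A2 B1)]; exact M.eRk_mono h2
      have h4 := hGC F A A2 B B1 le_sup_left hBB1 hfA2 hfB1 hA2K
      have h5 : finrank ℚ B1 < finrank ℚ B2 := by
        refine Submodule.finrank_lt_finrank_of_lt (lt_of_le_of_ne inf_le_left fun h => ?_)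
        have : l j₀ ∈ B1 := h ▸ hlB2 j₀
        exact hψ this.2
      rw [hdA, hdB, hdA2] at h4
      rw [hdB2] at h5
      have h6 : ((n + 1 + m + (p + q) : ℕ) : ℕ∞) + n' + m' ≤
          M.eRk (U F A B) + (n + 1 + p : ℕ) + finrank ℚ B1 :=
        le_trans (by gcongr; exact hR2.trans h3) h4
      generalize M.eRk (U F A B) = y at h6 ⊢
      induction y using ENat.recTopCoe with
      | top => simp
      | coe y =>
        norm_cast at h6 ⊢
        omega
    · -- not all exponents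
      obtain ⟨i₀, hi₀⟩ := exists_notMem hαi α' hn
      obtain ⟨φ, hφ, hφA⟩ := functional hi₀
      set A1 : Submodule ℚ ℂ := A2 ⊓ LinearMap.ker φ with hA1
      have hAA1 : A ≤ A1 := le_inf le_sup_left fun v hv => hφA v hv
      have hfA1 : FiniteDimensional ℚ A1 := Submodule.finiteDimensional_of_le inf_le_left
      have hsubA : ∀ v ∈ A2, v - ((φ v / φ (α i₀) : ℚ) : ℂ) * α i₀ ∈ A1 := by
        intro v hv
        refine ⟨?_, sub_ker hφ v⟩
        rw [← Rat.smul_def]
        exact Submodule.sub_mem _ hv (Submodule.smul_mem _ _ (hαA2 i₀))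
      have hC : ∑ i, F.E (α i) ∈ M.closure (U F A1 B2) := by
        have e : ∑ i, F.E (α i) = -∑ j, c j * l j := by
          rw [← Finset.sum_congr rfl fun i _ => hxE i]
          linear_combination hrel
        rw [e]
        exact cl_neg (cl_sum _ _ fun j _ => cl_mul (cl_empty_le (hc j)) (cl_self (Or.inr (hlB2 j))))
      have hxs : ∀ s : Finset (Fin (n + 1)), s.Nonempty → ∑ i ∈ s, F.E (α i) ≠ 0 := by
        intro s hs h0
        obtain ⟨i, hi⟩ := hs
        have h1 := linearIndependent_iff'.1 hx.linearIndependent s (fun _ => (1 : ℚ)) (by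
          rw [← h0]
          exact Finset.sum_congr rfl fun i _ => by rw [one_smul, hxE]) i hi
        exact one_ne_zero h1
      have h1 : F.E (α i₀) ∈ M.closure (U F A1 B2) :=
        hypA F hαK hxs hφ (fun i => cl_self (Or.inl ⟨_, hsubA _ (hαA2 i), rfl⟩)) hC
      have h2 : U F A2 B2 ⊆ M.closure (U F A1 B2) := by
        rintro _ (⟨v, hv, rfl⟩ | hv)
        · have e : v = (v - ((φ v / φ (α i₀) : ℚ) : ℂ) * α i₀) +
              ((φ v / φ (α i₀) : ℚ) : ℂ) * α i₀ := by ring
          have e2 : F.E v = F.E ((v - ((φ v / φ (α i₀) : ℚ) : ℂ) * α i₀) +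
              ((φ v / φ (α i₀) : ℚ) : ℂ) * α i₀) := congrArg F.E e
          rw [e2, F.E_add _ (F.K.sub_mem (hA2K v hv) (rat_mem_K F _ (hαK i₀))) _
            (rat_mem_K F _ (hαK i₀))]
          refine cl_mul (cl_self (Or.inl ⟨_, hsubA v hv, rfl⟩)) ?_
          have h3 : M.closure {F.E (α i₀)} ⊆ M.closure (U F A1 B2) := cl_le fun y hy => by
            rw [mem_singleton_iff] at hy; rw [hy]; exact h1
          exact h3 (E_rat F (hαK i₀) _)
        · exact cl_self (Or.inr hv)
      have h3 : M.eRk (U F A2 B2) ≤ M.eRk (U F A1 B2) := by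
        rw [← M.eRk_closure_eq (U F A1 B2)]; exact M.eRk_mono h2
      have h4 := hGC F A A1 B B2 hAA1 le_sup_left hfA1 hfB2 fun a ha => hA2K a ha.1
      have h5 : finrank ℚ A1 < finrank ℚ A2 := by
        refine Submodule.finrank_lt_finrank_of_lt (lt_of_le_of_ne inf_le_left fun h => ?_)
        have : α i₀ ∈ A1 := h ▸ hαA2 i₀
        exact hφ this.2
      rw [hdA, hdB, hdB2] at h4
      rw [hdA2] at h5
      have h6 : ((n + 1 + m + (p + q) : ℕ) : ℕ∞) + n' + m' ≤
          M.eRk (U F A B) + finrank ℚ A1 + (m + 1 + q : ℕ) :=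
        le_trans (by gcongr; exact hR2.trans h3) h4
      generalize M.eRk (U F A B) = y at h6 ⊢
      induction y using ENat.recTopCoe with
      | top => simp
      | coe y =>
        norm_cast at h6 ⊢
        omega
  have hfin : AlgebraicIndependent ℚ (Fin.append (fun i => F.E (α' i)) l') := by
    apply algInd_of_rk
    refine hmain.trans ?_
    rw [← M.eRk_closure_eq (range _)]
    apply M.eRk_mono
    have hle : ∀ i, F.E (α' i) ∈ range (Fin.append (fun i => F.E (α' i)) l') := fun i =>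
      ⟨Fin.castAdd _ i, Fin.append_left _ _ _⟩
    have hle' : ∀ j, l' j ∈ range (Fin.append (fun i => F.E (α' i)) l') := fun j =>
      ⟨Fin.natAdd _ j, Fin.append_right _ _ _⟩
    rintro _ (⟨v, hv, rfl⟩ | hv)
    · have h1 := (E_span F hαK' hv).2
      exact cl_mono (by rintro _ ⟨i, rfl⟩; exact hle i) h1
    · exact cl_mono (by rintro _ ⟨i, rfl⟩; exact hle' i) (span_cl hv)
  have h1 := hfin.comp finSumFinEquiv finSumFinEquiv.injective
  convert h1 using 1
  funext i
  rcases i with i | j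
  · simp
  · simp

end

end Pool.Agent.Helper35.GL
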