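import Pool.Agent.Helper35.GL.Hyp

/-! The point with one linear relation. -/

set_option autoImplicit false

namespace Pool.Agent.Helper35.GL

open Pool.Agent.Helper35.EM Pool.Agent.Helper56.EM Pool.Agent.Helper35.GF Set Module Submodule

theorem exists_seqQ : ∃ t : ℕ → ℂ, AlgebraicIndependent ℚ t := by
  obtain ⟨t, ht⟩ := exists_seq Qbar
  exact ⟨t, ht.restrictScalars (algebraMap ℚ Qbar).injective⟩

theorem x0_cl {n m : ℕ} {x : Fin (n + 1) → ℂ} {l c : Fin m → ℂ} (hc : ∀ j, c j ∈ M.closure ∅)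
    (h : ∑ i, x i + ∑ j, c j * l j = 0) :
    range x ∪ range l ⊆ M.closure (range l ∪ range fun i : Fin n => x i.succ) := by
  have hl : ∀ j, l j ∈ M.closure (range l ∪ range fun i : Fin n => x i.succ) := fun j =>
    cl_self (Or.inl ⟨j, rfl⟩)
  have hx : ∀ i : Fin n, x i.succ ∈ M.closure (range l ∪ range fun i : Fin n => x i.succ) :=
    fun i => cl_self (Or.inr ⟨i, rfl⟩)
  rintro _ (⟨i, rfl⟩ | ⟨j, rfl⟩)
  · refine Fin.cases ?_ hx i
    rw [Fin.sum_univ_succ] at h
    have e : x 0 = -(∑ i : Fin n, x i.succ + ∑ j, c j * l j) := by linear_combination h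
    rw [e]
    exact cl_neg (cl_add (cl_sum _ _ fun i _ => hx i)
      (cl_sum _ _ fun j _ => cl_mul (cl_empty_le (hc j)) (hl j)))
  · exact hl j

theorem encard_range_le {k : ℕ} (g : Fin k → ℂ) : (range g).encard ≤ k := by
  rw [← image_univ]
  refine (encard_image_le g univ).trans ?_
  rw [encard_univ]; simp

theorem exists_pt (n m : ℕ) (c : Fin (m + 1) → ℂ) (hc : ∀ j, c j ∈ M.closure ∅) (hc0 : c 0 ≠ 0) :
    ∃ (x : Fin (n + 1) → ℂ) (l : Fin (m + 1) → ℂ), ∑ i, x i + ∑ j, c j * l j = 0 ∧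
      AlgebraicIndependent ℚ x ∧ AlgebraicIndependent ℚ l ∧
        ((n + 1 + m : ℕ) : ℕ∞) ≤ M.eRk (range x ∪ range l) := by
  obtain ⟨t, ht⟩ := exists_seqQ
  set x : Fin (n + 1) → ℂ := fun i => t i with hx
  set r : Fin m → ℂ := fun j => t (n + 1 + j) with hr
  set l0 : ℂ := -(∑ i, x i + ∑ j : Fin m, c j.succ * r j) / c 0 with hl0
  set l : Fin (m + 1) → ℂ := Fin.cons l0 r with hl
  have hrel : ∑ i, x i + ∑ j, c j * l j = 0 := by
    rw [Fin.sum_univ_succ (fun j => c j * l j)]
    have e1 : l 0 = l0 := rfl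
    have e2 : ∀ j : Fin m, l j.succ = r j := fun j => rfl
    simp only [e1, e2]
    rw [hl0]
    field_simp
    ring
  have hrk : ((n + 1 + m : ℕ) : ℕ∞) ≤ M.eRk (range x ∪ range l) := by
    have h1 := rk_range (ht.comp (fun i : Fin (n + 1 + m) => (i : ℕ)) Fin.val_injective)
    rw [← h1]
    apply M.eRk_mono
    rintro _ ⟨i, rfl⟩
    by_cases h : (i : ℕ) < n + 1
    · exact Or.inl ⟨⟨i, h⟩, rfl⟩
    · have h2 : (i : ℕ) - (n + 1) < m := by omega
      refine Or.inr ⟨Fin.succ ⟨(i : ℕ) - (n + 1), h2⟩, ?_⟩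
      show t (n + 1 + ((i : ℕ) - (n + 1))) = t i
      congr 1
      omega
  refine ⟨x, l, hrel, ht.comp (fun i : Fin (n + 1) => (i : ℕ)) Fin.val_injective, ?_, hrk⟩
  apply algInd_of_rk
  have h1 := M.eRk_mono (x0_cl hc hrel)
  rw [M.eRk_closure_eq] at h1
  have h2 : ((n + 1 + m : ℕ) : ℕ∞) ≤ M.eRk (range l) + (n : ℕ∞) := by
    refine hrk.trans (h1.trans ((M.eRk_union_le_eRk_add_eRk _ _).trans ?_))
    gcongr
    exact (M.eRk_le_encard _).trans (encard_range_le _)
  have h3 : ((m + 1 : ℕ) : ℕ∞) + (n : ℕ∞) ≤ M.eRk (range l) + (n : ℕ∞) := by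
    refine le_trans (le_of_eq ?_) h2
    push_cast; ring
  exact (ENat.add_le_add_iff_right (by simp)).1 h3

/-- a family which completes another one -/
theorem ext_family {k k' : ℕ} {g : Fin k → ℂ} (hg : LinearIndependent ℚ g) (g' : Fin k' → ℂ) :
    ∃ (p : ℕ) (h : Fin p → ℂ), (∀ i, h i ∈ range g') ∧ LinearIndependent ℚ (Fin.append g h) ∧
      span ℚ (range (Fin.append g h)) = span ℚ (range g') ⊔ span ℚ (range g) := by
  obtain ⟨C, h2, h1, h3, h4⟩ := exists_linearIndepOn_id_extension (K := ℚ) (s := range g)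
    (t := range g ∪ range g') ((linearIndepOn_id_range_iff hg.injective).2 hg)
    subset_union_left
  have hCfin : C.Finite := ((finite_range g).union (finite_range g')).subset h2
  have hDfin : (C \ range g).Finite := hCfin.sdiff
  have := hDfin.fintype
  let e := (Fintype.equivFin (C \ range g : Set ℂ)).symm
  let u' : Fin (Fintype.card (C \ range g : Set ℂ)) → ℂ := fun j => (e j : ℂ)
  have hu'r : range u' = C \ range g := by
    have : u' = ((↑) : (C \ range g : Set ℂ) → ℂ) ∘ e := rfl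
    rw [this, range_comp, e.range_eq_univ, image_univ, Subtype.range_coe]
  have hrange : range (Fin.append g u') = C := by
    have h5 : range (Fin.append g u') = range g ∪ range u' := by
      ext v
      constructor
      · rintro ⟨k, rfl⟩
        refine Fin.addCases (fun i => ?_) (fun j => ?_) k
        · rw [Fin.append_left]; exact Or.inl ⟨i, rfl⟩
        · rw [Fin.append_right]; exact Or.inr ⟨j, rfl⟩
      · rintro (⟨i, rfl⟩ | ⟨j, rfl⟩)
        · exact ⟨Fin.castAdd _ i, Fin.append_left _ _ _⟩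
        · exact ⟨Fin.natAdd _ j, Fin.append_right _ _ _⟩
    rw [h5, hu'r]
    exact union_sdiff_cancel h1
  have hinj : Function.Injective (Fin.append g u') := by
    rw [Fin.append_injective_iff]
    refine ⟨hg.injective, Subtype.val_injective.comp e.injective, fun i j h => ?_⟩
    have h5 : u' j ∈ C \ range g := hu'r ▸ mem_range_self j
    exact h5.2 ⟨i, h⟩
  refine ⟨_, u', fun j => ?_, ?_, ?_⟩
  · have h5 : u' j ∈ C \ range g := hu'r ▸ mem_range_self j
    rcases h2 h5.1 with h6 | h6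
    · exact absurd h6 h5.2
    · exact h6
  · rw [← linearIndepOn_id_range_iff hinj, hrange]
    exact h4
  · rw [hrange, ← span_union, union_comm (range g')]
    apply le_antisymm
    · exact span_mono h2
    · rw [span_le]; exact h3

end Pool.Agent.Helper35.GL
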