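import Pool.Agent.Helper35.GL.Elim

/-! The point with several linear relations. -/

set_option autoImplicit false

namespace Pool.Agent.Helper35.GL

open Pool.Agent.Helper35.EM Pool.Agent.Helper56.EM Pool.Agent.Helper35.GF Set Module Submodule

/-- number of variables -/
abbrev tot {r : ℕ} (n : Fin r → ℕ) : ℕ := ∑ k, (n k + 1)

/-- the variables of the blocks -/
def bl {r : ℕ} (n : Fin r → ℕ) (k : Fin r) (i : Fin (n k + 1)) : Fin (tot n) :=
  finSigmaFinEquiv (m := r) (n := fun k => n k + 1) ⟨k, i⟩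

theorem bl_inj {r : ℕ} {n : Fin r → ℕ} {k k' : Fin r} {i : Fin (n k + 1)} {i' : Fin (n k' + 1)}
    (h : bl n k i = bl n k' i') : (⟨k, i⟩ : (k : Fin r) × Fin (n k + 1)) = ⟨k', i'⟩ :=
  finSigmaFinEquiv.injective h

theorem bl_injective {r : ℕ} (n : Fin r → ℕ) (k : Fin r) : Function.Injective (bl n k) := by
  intro i i' h
  have := bl_inj h
  simpa using this

theorem bl_surj {r : ℕ} {n : Fin r → ℕ} (i : Fin (tot n)) : ∃ k i', bl n k i' = i :=
  ⟨_, _, finSigmaFinEquiv.apply_symm_apply i⟩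

/-- a block -/
def blk {r : ℕ} (n : Fin r → ℕ) (k : Fin r) : Finset (Fin (tot n)) :=
  Finset.univ.map ⟨bl n k, bl_injective n k⟩

theorem card_blk {r : ℕ} (n : Fin r → ℕ) (k : Fin r) : (blk n k).card = n k + 1 := by
  rw [blk, Finset.card_map, Finset.card_univ, Fintype.card_fin]

theorem sum_blk {r : ℕ} (n : Fin r → ℕ) (k : Fin r) (f : Fin (tot n) → ℂ) :
    ∑ i ∈ blk n k, f i = ∑ i, f (bl n k i) := by
  rw [blk, Finset.sum_map]; rfl

theorem disj_blk {r : ℕ} (n : Fin r → ℕ) {k k' : Fin r} (h : k ≠ k') :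
    Disjoint (blk n k) (blk n k') := by
  rw [Finset.disjoint_left]
  intro i hi hi'
  obtain ⟨j, -, hj⟩ := Finset.mem_map.1 hi
  obtain ⟨j', -, hj'⟩ := Finset.mem_map.1 hi'
  have h1 : bl n k j = bl n k' j' := by
    rw [show bl n k j = i from hj, show bl n k' j' = i from hj']
  exact h (congrArg Sigma.fst (bl_inj h1))

theorem encard_first {r : ℕ} (n : Fin r → ℕ) :
    ({i : Fin (tot n) | ∀ k, i ≠ bl n k 0}.encard) + (r : ℕ∞) ≤ (tot n : ℕ∞) := by
  classical
  set S : Set (Fin (tot n)) := {i | ∀ k, i ≠ bl n k 0} with hS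
  have h1 : (range fun k => bl n k 0).encard = r := by
    rw [← image_univ, Function.Injective.encard_image, encard_univ]
    · simp
    · intro k k' h
      exact congrArg Sigma.fst (bl_inj h)
  have h2 : Disjoint S (range fun k => bl n k 0) := by
    rw [Set.disjoint_left]
    rintro _ hi ⟨k, rfl⟩
    exact hi k rfl
  rw [← h1, ← encard_union_eq h2]
  refine (encard_le_encard (subset_univ _)).trans ?_
  rw [encard_univ]; simp

theorem exists_pts {r : ℕ} (n m : Fin r → ℕ) (c : Fin (tot m) → ℂ) (hc : ∀ j, c j ∈ M.closure ∅)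
    (hc0 : ∀ j, c j ≠ 0) :
    ∃ (x : Fin (tot n) → ℂ) (l : Fin (tot m) → ℂ),
      (∀ k, ∑ i, x (bl n k i) + ∑ j, c (bl m k j) * l (bl m k j) = 0) ∧
      AlgebraicIndependent ℚ x ∧ AlgebraicIndependent ℚ l ∧
        ((tot n + tot m : ℕ) : ℕ∞) ≤ M.eRk (range x ∪ range l) + r := by
  obtain ⟨t, ht⟩ := exists_seqQ
  set x : Fin (tot n) → ℂ := fun i => t i with hx
  set l0 : Fin r → ℂ := fun k => -(∑ i, x (bl n k i) +
    ∑ j : Fin (m k), c (bl m k j.succ) * t (tot n + bl m k j.succ)) / c (bl m k 0) with hl0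
  set L : ((k : Fin r) × Fin (m k + 1)) → ℂ := fun p =>
    Fin.cases (l0 p.1) (fun j => t (tot n + bl m p.1 j.succ)) p.2 with hL
  set l : Fin (tot m) → ℂ := fun j => L (finSigmaFinEquiv.symm j) with hl
  have hlb : ∀ k j, l (bl m k j) = L ⟨k, j⟩ := by
    intro k j
    show L (finSigmaFinEquiv.symm (bl m k j)) = L ⟨k, j⟩
    rw [bl, Equiv.symm_apply_apply]
  have hl1 : ∀ k, l (bl m k 0) = l0 k := fun k => hlb k 0
  have hl2 : ∀ k (j : Fin (m k)), l (bl m k j.succ) = t (tot n + bl m k j.succ) := fun k j =>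
    hlb k j.succ
  have hrel : ∀ k, ∑ i, x (bl n k i) + ∑ j, c (bl m k j) * l (bl m k j) = 0 := by
    intro k
    rw [Fin.sum_univ_succ (fun j => c (bl m k j) * l (bl m k j)), hl1]
    simp only [hl2]
    rw [hl0]
    have := hc0 (bl m k 0)
    field_simp
    ring
  have hrk : ((tot n + tot m : ℕ) : ℕ∞) ≤ M.eRk (range x ∪ range l) + r := by
    have h1 := rk_range (ht.comp (fun i : Fin (tot n + tot m) => (i : ℕ)) Fin.val_injective)
    rw [← h1]
    have h2 : range (t ∘ fun i : Fin (tot n + tot m) => (i : ℕ)) ⊆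
        (range x ∪ range l) ∪ range fun k : Fin r => t (tot n + bl m k 0) := by
      rintro _ ⟨i, rfl⟩
      by_cases h : (i : ℕ) < tot n
      · exact Or.inl (Or.inl ⟨⟨i, h⟩, rfl⟩)
      · have h2 : (i : ℕ) - tot n < tot m := by omega
        obtain ⟨k, j, hkj⟩ := bl_surj (n := m) ⟨(i : ℕ) - tot n, h2⟩
        have h3 : (bl m k j : ℕ) = i - tot n := by rw [hkj]
        have h4 : t i = t (tot n + bl m k j) := by
          congr 1; omega
        show t i ∈ _
        rw [h4]
        revert hkj h3 h4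
        refine Fin.cases ?_ (fun j => ?_) j
        · intro _ _ _; exact Or.inr ⟨k, rfl⟩
        · intro _ _ _; exact Or.inl (Or.inr ⟨_, hl2 k j⟩)
    refine (M.eRk_mono h2).trans ((M.eRk_union_le_eRk_add_eRk _ _).trans ?_)
    gcongr
    exact (M.eRk_le_encard _).trans (encard_range_le _)
  refine ⟨x, l, hrel, ht.comp (fun i : Fin (tot n) => (i : ℕ)) Fin.val_injective, ?_, hrk⟩
  apply algInd_of_rk
  set S : Set (Fin (tot n)) := {i | ∀ k, i ≠ bl n k 0} with hS
  have hcl : range x ∪ range l ⊆ M.closure (range l ∪ x '' S) := by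
    rintro _ (⟨i, rfl⟩ | ⟨j, rfl⟩)
    · by_cases hi : i ∈ S
      · exact cl_self (Or.inr ⟨i, hi, rfl⟩)
      · have h1 : ∃ k, i = bl n k 0 := by
          by_contra h; push Not at h; exact hi h
        obtain ⟨k, rfl⟩ := h1
        have h2 := hrel k
        rw [Fin.sum_univ_succ (fun i => x (bl n k i))] at h2
        have e : x (bl n k 0) = -(∑ i : Fin (n k), x (bl n k i.succ) +
            ∑ j, c (bl m k j) * l (bl m k j)) := by linear_combination h2
        rw [e]
        refine cl_neg (cl_add (cl_sum _ _ fun i _ => cl_self (Or.inr ⟨_, fun k' h => ?_, rfl⟩))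
          (cl_sum _ _ fun j _ => cl_mul (cl_empty_le (hc _)) (cl_self (Or.inl ⟨_, rfl⟩))))
        have h3 := bl_inj h
        obtain rfl : k = k' := congrArg Sigma.fst h3
        have h4 : i.succ = (0 : Fin (n k + 1)) := by
          have h5 := (Sigma.mk.inj h3).2
          exact eq_of_heq h5
        exact absurd h4 (Fin.succ_ne_zero i)
    · exact cl_self (Or.inl ⟨j, rfl⟩)
  have h1 := M.eRk_mono hcl
  rw [M.eRk_closure_eq] at h1
  have h2 : M.eRk (range l ∪ x '' S) ≤ M.eRk (range l) + S.encard :=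
    (M.eRk_union_le_eRk_add_eRk _ _).trans (by
      gcongr; exact (M.eRk_le_encard _).trans (encard_image_le _ _))
  have h3 := encard_first n
  have h4 : ((tot n + tot m : ℕ) : ℕ∞) ≤ M.eRk (range l) + (S.encard + r) := by
    calc _ ≤ M.eRk (range x ∪ range l) + r := hrk
      _ ≤ (M.eRk (range l) + S.encard) + r := by gcongr; exact h1.trans h2
      _ = _ := by ring
  have h5 : ((tot m : ℕ) : ℕ∞) + (tot n : ℕ) ≤ M.eRk (range l) + (tot n : ℕ) := by
    calc ((tot m : ℕ) : ℕ∞) + (tot n : ℕ) = ((tot n + tot m : ℕ) : ℕ∞) := by push_cast; ring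
      _ ≤ _ := h4
      _ ≤ _ := by gcongr
  exact (ENat.add_le_add_iff_right (by simp)).1 h5

end Pool.Agent.Helper35.GL
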