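import Pool.Agent.Helper35.GL.Dick

/-! The question and the levels of the complex numbers. -/

set_option autoImplicit false

namespace Pool.Agent.Helper35.GL

open Pool.Agent.Helper35.GF Set Module Submodule

theorem extend {n' n : ℕ} (hn : n' ≤ n) {α' : Fin n' → ℂ} (hα' : LinearIndependent ℚ α')
    {g : Fin n → ℂ} (hg : LinearIndependent ℚ g) {p : ℂ → Prop} (h1 : ∀ i, p (α' i))
    (h2 : ∀ i, p (g i)) :
    ∃ α : Fin n → ℂ, LinearIndependent ℚ α ∧ (∀ i, p (α i)) ∧ ∀ i, α (Fin.castLE hn i) = α' i := by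
  obtain ⟨q, h, hh, hhi, hsp⟩ := ext_family hα' g
  have hle : n ≤ n' + q := by
    have e1 : finrank ℚ (span ℚ (range (Fin.append α' h))) = n' + q := by
      rw [finrank_span_eq_card hhi]; simp
    have e2 : finrank ℚ (span ℚ (range g)) = n := by
      rw [finrank_span_eq_card hg]; simp
    have hf : FiniteDimensional ℚ (span ℚ (range (Fin.append α' h))) :=
      FiniteDimensional.span_of_finite ℚ (finite_range _)
    rw [← e1, ← e2]
    exact Submodule.finrank_mono (hsp ▸ le_sup_left)
  refine ⟨Fin.append α' h ∘ Fin.castLE hle, hhi.comp _ (Fin.castLE_injective hle), fun i => ?_,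
    fun i => ?_⟩
  · show p (Fin.append α' h (Fin.castLE hle i))
    refine Fin.addCases (fun i => ?_) (fun i => ?_) (Fin.castLE hle i)
    · rw [Fin.append_left]; exact h1 i
    · rw [Fin.append_right]
      obtain ⟨j, hj⟩ := hh i
      rw [← hj]; exact h2 j
  · show Fin.append α' h (Fin.castLE hle (Fin.castLE hn i)) = α' i
    have : Fin.castLE hle (Fin.castLE hn i) = Fin.castAdd q i := Fin.ext rfl
    rw [this, Fin.append_left]

theorem question_iff {F : ExpField} (hK : F.K = ⊤) (hE : F.E = Complex.exp) :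
    Question ↔ levels F = univ := by
  constructor
  · intro hQ
    rw [eq_univ_iff_forall]
    rintro ⟨a, b⟩ n' m' α' l' - - hα' hl' hαi hli
    set n := max n' m' + 1 with hn
    obtain ⟨g, hg, hgi⟩ := ga n
    obtain ⟨g', hg', hgi'⟩ := gb n
    obtain ⟨α, h1, h2, h3⟩ := extend (show n' ≤ n by omega) hαi hgi (p := fun z => IsAlgebraic ℚ z)
      hα' hg
    obtain ⟨l, h4, h5, h6⟩ := extend (show m' ≤ n by omega) hli hgi'
      (p := fun z => IsAlgebraic ℚ (Complex.exp z)) (fun j => hE ▸ (hl' j).2) hg'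
    have h7 := (hQ n (by omega) α l h2 h5 h1 h4).comp
      (Sum.map (Fin.castLE (show n' ≤ n by omega)) (Fin.castLE (show m' ≤ n by omega)))
      ((Fin.castLE_injective _).sumMap (Fin.castLE_injective _))
    convert h7 using 1
    funext i
    rcases i with i | j
    · simp [h3, hE]
    · simp [h6]
  · intro h n _ α l h1 h2 h3 h4
    have h5 : (n, n) ∈ levels F := h ▸ mem_univ _
    have h6 := h5 n n α l le_rfl le_rfl h1 (fun j => ⟨hK ▸ trivial, by rw [hE]; exact h2 j⟩) h3 h4
    rwa [hE] at h6

end Pool.Agent.Helper35.GL
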