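import Pool.Agent.Helper35.GF.Ide

/-! The levels of Gel'fond's conjecture in an exponential field, and statements of packages. -/

set_option autoImplicit false

namespace Pool.Agent.Helper35.GL

open Pool.Agent.Helper35.EM Pool.Agent.Helper35.GF Set Module Submodule

/-- package GA: rationally independent algebraic numbers (the powers of a root of `X ^ n - 2`;
`Polynomial.irreducible_of_eisenstein_criterion` or `X_pow_sub_C_irreducible...`,
`linearIndependent_pow`) -/
def S_GA : Prop := ∀ n : ℕ, ∃ α : Fin n → ℂ, (∀ i, IsAlgebraic ℚ (α i)) ∧ LinearIndependent ℚ α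

/-- package GB: rationally independent logarithms of algebraic numbers (`log` of the primes) -/
def S_GB : Prop := ∀ m : ℕ, ∃ b : Fin m → ℂ, (∀ j, IsAlgebraic ℚ (Complex.exp (b j))) ∧
  LinearIndependent ℚ b

/-- the exponentials of a rational space and the elements of another one -/
def U (F : ExpField) (A B : Submodule ℚ ℂ) : Set ℂ := F.E '' (A : Set ℂ) ∪ B

/-- package GC: the rank of `E(A) ∪ B` grows at most by the dimensions. (First, from `E_add`: `E (q a)`
is algebraic over `E a` for rational `q`; complement of `A` in `A1`, bases;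
`Matroid.eRk_union_le_eRk_add_eRk`. Compare `Pool.Agent.Helper35.GF.mu2`.) -/
def S_GC : Prop := ∀ (F : ExpField) (A A1 B B1 : Submodule ℚ ℂ), A ≤ A1 → B ≤ B1 →
  FiniteDimensional ℚ A1 → FiniteDimensional ℚ B1 → (∀ a ∈ A1, a ∈ F.K) →
    M.eRk (U F A1 B1) + finrank ℚ A + finrank ℚ B ≤
      M.eRk (U F A B) + finrank ℚ A1 + finrank ℚ B1

/-- package GD: converse of AI: algebraic independence over `ℚ(S)` gives rank. (A basis `I` of `S`,
`AlgebraicIndependent.restrictScalars` to `Algebra.adjoin ℚ I`, `AlgebraicIndependent.sumElim_iff`.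
Compare the proof of `Pool.Agent.Helper35.GF.log_of_generated`, where this is done.) -/
def S_GD : Prop := ∀ (S : Set ℂ), S.Finite → ∀ (r : ℕ) (g : Fin r → ℂ),
  AlgebraicIndependent (IntermediateField.adjoin ℚ S) g → M.eRk S + (r : ℕ∞) ≤ M.eRk (S ∪ range g)

end Pool.Agent.Helper35.GL
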